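import Pool.Agent.H37.CTR.Stmts
set_option autoImplicit false
namespace Pool.CND
open Finset

lemma sqp_aux (Q : Type) [Group Q] [Finite Q] (W : Subgroup Q) :
    Nat.card W * Nat.card (Subgroup.center Q) ∣ Nat.card Q * Nat.card (Subgroup.center W) := by
  have h1 : (Subgroup.center Q).relIndex W ∣ (Subgroup.center Q).index :=
    Subgroup.relIndex_dvd_index_of_normal _ _
  have h2 : (Subgroup.center Q).index * Nat.card (Subgroup.center Q) = Nat.card Q :=
    Subgroup.index_mul_card _
  have h3 : (Subgroup.center Q).relIndex W * Nat.card ((Subgroup.center Q).subgroupOf W) =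
      Nat.card W := Subgroup.index_mul_card _
  have h4 : (Subgroup.center Q).subgroupOf W ≤ Subgroup.center W := by
    intro x hx
    rw [Subgroup.mem_subgroupOf] at hx
    rw [Subgroup.mem_center_iff] at hx ⊢
    intro g
    exact Subtype.ext (hx g)
  have h5 : Nat.card ((Subgroup.center Q).subgroupOf W) ∣ Nat.card (Subgroup.center W) :=
    Subgroup.card_dvd_of_le h4
  rw [← h2, ← h3]
  calc (Subgroup.center Q).relIndex W * Nat.card ((Subgroup.center Q).subgroupOf W) *
        Nat.card (Subgroup.center Q)
      = (Subgroup.center Q).relIndex W * Nat.card (Subgroup.center Q) *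
        Nat.card ((Subgroup.center Q).subgroupOf W) := by ring
    _ ∣ (Subgroup.center Q).index * Nat.card (Subgroup.center Q) *
        Nat.card (Subgroup.center W) :=
        Nat.mul_dvd_mul (Nat.mul_dvd_mul h1 dvd_rfl) h5

theorem sqp_thm : S_SQP := by
  intro p n G _ _ P W hp hW
  have : Fact p.Prime := ⟨hp⟩
  have hWp : IsPGroup p W := IsPGroup.of_card hW
  obtain ⟨Q, hQ⟩ := hWp.exists_le_sylow
  have e : P ≃* Q := Sylow.equiv P Q
  have h1 : Nat.card P = Nat.card Q := Nat.card_congr e.toEquiv
  have h2 : Nat.card (Subgroup.center P) = Nat.card (Subgroup.center Q) :=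
    Nat.card_congr (Subgroup.centerCongr e).toEquiv
  have e3 := Subgroup.subgroupOfEquivOfLe hQ
  have h3 : Nat.card (W.subgroupOf Q) = Nat.card W := Nat.card_congr e3.toEquiv
  have h4 : Nat.card (Subgroup.center (W.subgroupOf Q)) = Nat.card (Subgroup.center W) :=
    Nat.card_congr (Subgroup.centerCongr e3).toEquiv
  rw [h1, h2, ← h3, ← h4]
  exact sqp_aux Q (W.subgroupOf Q)

end Pool.CND
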