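import Pool.Agent.H37.CTQ.Stmts

/-!
# Denominators of conductors: `(N_G)_p ^ 2` divides `|P : Z(P)|`: statements of the rows of the board `ctr`

Row `XXX` is a theorem `xxx_thm (h1 : S_AAA) ... : S_XXX` in `Pool/Agent/H<k>/CTR/XXX.lean`, importing this
file, namespace `Pool.CND`.
-/

set_option autoImplicit false

namespace Pool.CND

open Finset

/-- SQ1 (`W` a finite `p`-group): induction on `|W|`.  (1) If `Z(W)` is not cyclic, there is `N ≤ Z(W)` of order `p`, `z ∉ N`; apply the statement to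
`W / N` (`Z(W) / N ≤ Z(W / N)`), take preimages.  (2) `W` commutative: `H = W`, `H₀ = 1`.  (3) Else `Z = Z(W)` is cyclic, so `⟨z⟩` is its subgroup of
order `p`; take `x ∉ Z` with `x Z` of order `p` in `Z(W / Z)`.  `w ↦ [w, x]` is a homomorphism `W → Z`, with values in `⟨z⟩` as `[w, x] ^ p = [w, x ^ p] = 1`; its kernel `M = C_W(x)` has index `p`
(not `W` as `x ∉ Z`); `B = ⟨Z, x⟩ ≤ Z(M)`, `|B| = p |Z|`, `|Z(M)| ≥ p |Z|`.  Apply the statement to `M`, `z`: `p ^ (2 d') |Z(M)|` divides `|M|`,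
so with `d = d' + 1`: `p ^ (2 d) |Z| = p ^ 2 p ^ (2 d') |Z|` divides `p |M| = |W|`, as `p |Z|` divides `|Z(M)|` -/
def S_SQ1 : Prop := ∀ (p n : ℕ) (W : Type) [Group W] [Finite W] (z : W), p.Prime →
  Nat.card W = p ^ n → z ≠ 1 → z ^ p = 1 → z ∈ Subgroup.center W → ∃ (H H₀ : Subgroup W) (d : ℕ),
    z ∈ H ∧ Nat.card W = p ^ d * Nat.card H ∧ H₀ ≤ H ∧ z ∉ H₀ ∧
    p ^ (2 * d) * Nat.card (Subgroup.center W) ∣ Nat.card W ∧
    (∀ h ∈ H, ∀ x ∈ H₀, h * x * h⁻¹ ∈ H₀) ∧ ∀ x ∈ H, ∀ h ∈ H, h * x * h⁻¹ * x⁻¹ ∈ H₀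

/-- SQ2: as at the end of `PG2`: all orbits of `⟨g⟩` on `C ∖ 1` have the same length `N`, the order of the automorphism of `C`, so `N` divides `|C| - 1` -/
def S_SQ2 : Prop := ∀ (p : ℕ) (G : Type) [Group G] [Finite G] (g : G) (C : Subgroup G), p.Prime →
  C ≠ ⊥ → EA p C → (∀ x ∈ C, g * x * g⁻¹ ∈ C) → YS g C → ∃ m : ℕ, 1 ≤ m ∧ Nat.card C = p ^ m ∧
    ∀ x ∈ C, g ^ (p ^ m - 1) * x = x * g ^ (p ^ m - 1)

/-- SQP: `W` is contained in a Sylow subgroup (conjugate to `P`); `W ∩ Z(P') ≤ Z(W)`, so `|W : Z(W)|` divides `|P : Z(P)|` -/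
def S_SQP : Prop := ∀ (p n : ℕ) (G : Type) [Group G] [Finite G] (P : Sylow p G) (W : Subgroup G),
  p.Prime → Nat.card W = p ^ n →
  Nat.card W * Nat.card (Subgroup.center P) ∣ Nat.card P * Nat.card (Subgroup.center W)

/-- SQG: `GDX` with `SQ1` (for `W` as a type), `SQP`, `SQ2`: `p ^ (2 d)` divides `|W : Z(W)|`, so `|P : Z(P)|`, so `d ≤ a` -/
def S_SQG : Prop := ∀ (p a e : ℕ) (k G : Type) [Field k] [IsAlgClosed k] [Group G] [Finite G]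
  (P : Sylow p G), p.Prime → CharP k p →
  Nat.card P < p ^ (2 * a + 2) * Nat.card (Subgroup.center P) →
  (∀ C : Subgroup G, EA p C → Nat.card C ≤ p ^ e) →
  (∀ c ∈ Cond k G, ∃ y : ℤ,
    ((p ^ a * (Icc 1 e).lcm (fun m => p ^ m - 1) : ℕ) : ℚ) * c = y) ∧
  NG k G ∣ p ^ a * (Icc 1 e).lcm (fun m => p ^ m - 1)

end Pool.CND
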